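import Mathlib

/-!
# o-conjugacy can be a congruence with a non-cancellative quotient

We exhibit a monoid `S` of self-maps of the first uncountable ordinal on which o-conjugacy is a
congruence with exactly two classes, `{1}` and the rest; the quotient is the two-element
semilattice, which is not cancellative.
-/

namespace Pool.Agent.Results.MP_472d46_al.OConjNotCancel

open Set Function Cardinal

/-- o-conjugacy in a semigroup `S`: there are `g, h` in `S` with an identity adjoined such that
`a g = g b` and `b h = h a`. -/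
def OConj {S : Type*} [Semigroup S] (a b : S) : Prop :=
  ∃ g h : WithOne S, (a : WithOne S) * g = g * (b : WithOne S) ∧
    (b : WithOne S) * h = h * (a : WithOne S)

/-- The first uncountable ordinal, as a type. -/
abbrev W : Type := (Cardinal.aleph 1).ord.ToType

lemma mk_W : #W = Cardinal.aleph 1 := by simp [W]

lemma countable_iff_lt (s : Set W) : s.Countable ↔ #s < Cardinal.aleph 1 := by
  rw [Cardinal.lt_aleph_one_iff, Cardinal.le_aleph0_iff_set_countable]

lemma countable_Iio (i : W) : (Iio i).Countable := by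
  rw [countable_iff_lt]
  have := Cardinal.mk_Iio_lt i (by simp [W])
  rwa [mk_W] at this

lemma countable_Iic (i : W) : (Iic i).Countable := by
  have : Iic i = Iio i ∪ {i} := by
    ext x; simp [le_iff_lt_or_eq, or_comm]
  rw [this]
  exact (countable_Iio i).union (countable_singleton i)

lemma not_countable_univ : ¬ (univ : Set W).Countable := by
  rw [countable_iff_lt, Cardinal.mk_univ, mk_W]
  exact lt_irrefl _

lemma exists_bound (s : ℕ → W) : ∃ b : W, ∀ n, s n ≤ b := by
  by_contra h
  push Not at h
  apply not_countable_univ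
  have : (univ : Set W) = ⋃ n, Iio (s n) := by
    ext x
    simpa using h x
  rw [this]
  exact countable_iUnion fun n => countable_Iio _

lemma choice (D : Set W) (hD : ¬ D.Countable) (b : W → W) :
    ∃ F : W → W, Injective F ∧ (∀ c, b c < F c) ∧ (∀ c, F c ∈ D) ∧ ¬ (D \ range F).Countable := by
  have hDc : #D = Cardinal.aleph 1 := by
    apply le_antisymm
    · rw [← mk_W]; exact Cardinal.mk_set_le D
    · rw [countable_iff_lt] at hD
      exact not_lt.mp hD
  have hprod : #(W × W) = #D := by
    rw [hDc, Cardinal.mk_prod]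
    simp only [Cardinal.lift_id, mk_W]
    exact Cardinal.mul_eq_self (Cardinal.aleph0_le_aleph 1)
  obtain ⟨e⟩ := Cardinal.eq.mp hprod
  have key : ∀ c : W, ∃ t : W, b c < (e (c, t) : W) := by
    intro c
    by_contra h
    push Not at h
    apply not_countable_univ
    have hinj : InjOn (fun t : W => ((e (c, t) : D) : W)) univ := by
      intro t _ t' _ htt
      have := e.injective (Subtype.ext htt)
      simpa using this
    refine Set.MapsTo.countable_of_injOn (t := Iic (b c)) ?_ hinj (countable_Iic _)
    intro t _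
    exact h t
  choose t ht using key
  refine ⟨fun c => (e (c, t c) : W), ?_, ht, fun c => (e (c, t c)).2, ?_⟩
  · intro c c' hcc
    have := e.injective (Subtype.ext hcc)
    simpa using (Prod.ext_iff.mp this).1
  · intro hcount
    obtain ⟨c₀⟩ : Nonempty W := by
      by_contra hne
      rw [not_nonempty_iff] at hne
      exact not_countable_univ (Set.countable_univ_iff.mpr inferInstance)
    apply not_countable_univ
    have h1 : ({t c₀}ᶜ : Set W).Countable := by
      have hinj : InjOn (fun s : W => ((e (c₀, s) : D) : W)) ({t c₀}ᶜ) := by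
        intro s _ s' _ hss
        have := e.injective (Subtype.ext hss)
        simpa using this
      refine Set.MapsTo.countable_of_injOn ?_ hinj hcount
      intro s hs
      refine ⟨(e (c₀, s)).2, ?_⟩
      rintro ⟨c, hc⟩
      have := e.injective (Subtype.ext hc)
      have h1 := (Prod.ext_iff.mp this).1
      have h2 := (Prod.ext_iff.mp this).2
      simp only at h1 h2
      subst h1
      exact hs h2.symm
    have h2 : (univ : Set W) = {t c₀}ᶜ ∪ {t c₀} := (Set.compl_union_self _).symm
    rw [h2]
    exact h1.union (countable_singleton _)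

/-- The maps used: injective, strictly increasing every point, with uncountable complement of the
range. -/
def IsPos (f : W → W) : Prop := Injective f ∧ (∀ x, x < f x) ∧ ¬ ((range f)ᶜ).Countable

lemma IsPos.comp {f g : W → W} (hf : IsPos f) (hg : IsPos g) : IsPos (f ∘ g) := by
  refine ⟨hf.1.comp hg.1, fun x => (hg.2.1 x).trans (hf.2.1 _), fun hc => hf.2.2 ?_⟩
  exact hc.mono (compl_subset_compl.mpr (range_comp_subset_range g f))

lemma exists_isPos : ∃ f : W → W, IsPos f := by
  obtain ⟨F, hF, hlt, -, hc⟩ := choice univ not_countable_univ id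
  refine ⟨F, hF, hlt, fun h => hc ?_⟩
  rwa [← compl_eq_univ_sdiff]

lemma exists_root {f : W → W} (hf : IsPos f) (x : W) : ∃ p : ℕ × W, p.2 ∉ range f ∧ f^[p.1] p.2 = x := by
  induction x using WellFoundedLT.induction with
  | ind x ih =>
    by_cases hx : x ∈ range f
    · obtain ⟨y, rfl⟩ := hx
      obtain ⟨⟨k, c⟩, hc, hk⟩ := ih y (hf.2.1 y)
      refine ⟨⟨k + 1, c⟩, hc, ?_⟩
      simp only at hk ⊢
      rw [iterate_succ_apply', hk]
    · exact ⟨⟨0, x⟩, hx, rfl⟩

lemma root_unique {f : W → W} (hf : Injective f) {c c' : W} (hc : c ∉ range f)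
    (hc' : c' ∉ range f) : ∀ k l : ℕ, f^[k] c = f^[l] c' → k = l ∧ c = c' := by
  intro k
  induction k with
  | zero =>
    intro l h
    cases l with
    | zero => exact ⟨rfl, h⟩
    | succ l =>
      exfalso
      rw [iterate_succ_apply'] at h
      exact hc ⟨_, h.symm⟩
  | succ k ih =>
    intro l h
    cases l with
    | zero =>
      exfalso
      rw [iterate_succ_apply'] at h
      exact hc' ⟨_, h⟩
    | succ l =>
      rw [iterate_succ_apply', iterate_succ_apply'] at h
      obtain ⟨h1, h2⟩ := ih l (hf h)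
      exact ⟨by rw [h1], h2⟩

lemma le_iterate {f : W → W} (hf : IsPos f) (k : ℕ) (x : W) : x ≤ f^[k] x := by
  induction k with
  | zero => exact le_rfl
  | succ k ih =>
    rw [iterate_succ_apply']
    exact ih.trans (hf.2.1 _).le

/-- Any two of the maps are conjugate. -/
lemma exists_conj {x y : W → W} (hx : IsPos x) (hy : IsPos y) :
    ∃ u : W → W, IsPos u ∧ y ∘ u = u ∘ x := by
  have hb : ∀ c : W, ∃ b : W, ∀ n, x^[n] c ≤ b := fun c => exists_bound _
  choose b hb using hb
  obtain ⟨F, hF, hlt, hD, hc⟩ := choice ((range y)ᶜ) hy.2.2 b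
  choose r hr1 hr2 using exists_root hx
  have hu : ∀ (k : ℕ) (c : W), c ∉ range x → r (x^[k] c) = (k, c) := by
    intro k c hcx
    have h := hr2 (x^[k] c)
    obtain ⟨h1, h2⟩ := root_unique hx.1 (hr1 _) hcx _ _ h
    exact Prod.ext h1 h2
  refine ⟨fun ξ => y^[(r ξ).1] (F (r ξ).2), ⟨?_, ?_, ?_⟩, ?_⟩
  · intro ξ η h
    simp only at h
    obtain ⟨h1, h2⟩ := root_unique hy.1 (hD _) (hD _) _ _ h
    have h3 := hF h2
    rw [← hr2 ξ, ← hr2 η, h1, h3]
  · intro ξ
    calc ξ = x^[(r ξ).1] (r ξ).2 := (hr2 ξ).symm
      _ ≤ b (r ξ).2 := hb _ _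
      _ < F (r ξ).2 := hlt _
      _ ≤ y^[(r ξ).1] (F (r ξ).2) := le_iterate hy _ _
  · intro hcount
    apply hc
    refine hcount.mono ?_
    rintro d ⟨hd1, hd2⟩ ⟨ξ, hξ⟩
    apply hd2
    simp only at hξ
    cases hk : (r ξ).1 with
    | zero =>
      rw [hk] at hξ
      exact ⟨_, hξ⟩
    | succ k =>
      exfalso
      rw [hk, iterate_succ_apply'] at hξ
      exact hd1 ⟨_, hξ⟩
  · funext ξ
    have h1 : r (x ξ) = ((r ξ).1 + 1, (r ξ).2) := by
      rw [← hu ((r ξ).1 + 1) (r ξ).2 (hr1 ξ), iterate_succ_apply', hr2]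
    simp only [comp_apply, h1, iterate_succ_apply']

/-- The monoid: the identity together with all the maps satisfying `IsPos`. -/
def M : Submonoid (Function.End W) where
  carrier := {f | f = 1 ∨ IsPos f}
  one_mem' := Or.inl rfl
  mul_mem' := by
    rintro f g (rfl | hf) (rfl | hg)
    · left; simp
    · right; simpa using hg
    · right; simpa using hf
    · right; exact hf.comp hg

lemma isPos_ne_one {f : Function.End W} (hf : IsPos f) : f ≠ 1 := by
  rintro rfl
  obtain ⟨c₀⟩ : Nonempty W := by
    by_contra hne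
    rw [not_nonempty_iff] at hne
    exact not_countable_univ (Set.countable_univ_iff.mpr inferInstance)
  exact lt_irrefl _ (hf.2.1 c₀)

lemma isPos_of_ne_one {f : M} (hf : f ≠ 1) : IsPos (f : Function.End W) := by
  rcases f.2 with h | h
  · exact absurd (Subtype.ext h) hf
  · exact h

lemma mul_eq_one_iff' (a b : M) : a * b = 1 ↔ a = 1 ∧ b = 1 := by
  constructor
  · intro h
    by_cases ha : a = 1
    · refine ⟨ha, ?_⟩
      simpa [ha] using h
    · exfalso
      have hpa := isPos_of_ne_one ha
      by_cases hb : b = 1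
      · apply ha; simpa [hb] using h
      · have hpb := isPos_of_ne_one hb
        exact isPos_ne_one (hpa.comp hpb) (congrArg Subtype.val h)
  · rintro ⟨rfl, rfl⟩; simp

/-- The congruence with classes `{1}` and its complement. -/
def c : Con M where
  r a b := (a = 1 ↔ b = 1)
  iseqv := ⟨fun _ => Iff.rfl, fun h => h.symm, fun h h' => h.trans h'⟩
  mul' := by
    intro a b c d h1 h2
    simp only [mul_eq_one_iff'] at *
    tauto

lemma oconj_one {b : M} (h : WithOne M) (hh : (b : WithOne M) * h = h * ((1 : M) : WithOne M)) :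
    b = 1 := by
  by_contra hb
  have hpb := isPos_of_ne_one hb
  rcases WithOne.cases_on (P := fun h => h = 1 ∨ ∃ v : M, h = (v : WithOne M)) h
    (Or.inl rfl) (fun v => Or.inr ⟨v, rfl⟩) with rfl | ⟨v, rfl⟩
  · rw [mul_one, one_mul] at hh
    exact hb (WithOne.coe_inj.mp hh)
  · rw [← WithOne.coe_mul, ← WithOne.coe_mul, mul_one] at hh
    have h1 := WithOne.coe_inj.mp hh
    have h2 := congrArg Subtype.val h1
    obtain ⟨c₀⟩ : Nonempty W := by
      by_contra hne
      rw [not_nonempty_iff] at hne
      exact not_countable_univ (Set.countable_univ_iff.mpr inferInstance)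
    have h3 := congrFun h2 c₀
    have h4 := hpb.2.1 ((v : Function.End W) c₀)
    exact (ne_of_gt h4) h3

lemma c_iff (a b : M) : c a b ↔ OConj a b := by
  constructor
  · intro h
    have h' : (a = 1 ↔ b = 1) := h
    by_cases ha : a = 1
    · have hb := h'.mp ha
      subst ha; subst hb
      exact ⟨1, 1, rfl, rfl⟩
    · have hb : b ≠ 1 := fun hb => ha (h'.mpr hb)
      have hpa := isPos_of_ne_one ha
      have hpb := isPos_of_ne_one hb
      obtain ⟨u, hu, hu'⟩ := exists_conj hpb hpa
      obtain ⟨v, hv, hv'⟩ := exists_conj hpa hpb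
      refine ⟨((⟨u, Or.inr hu⟩ : M) : WithOne M), ((⟨v, Or.inr hv⟩ : M) : WithOne M), ?_, ?_⟩
      · rw [← WithOne.coe_mul, ← WithOne.coe_mul]
        congr 1
        exact Subtype.ext hu'
      · rw [← WithOne.coe_mul, ← WithOne.coe_mul]
        congr 1
        exact Subtype.ext hv'
  · rintro ⟨g, h, h1, h2⟩
    show a = 1 ↔ b = 1
    constructor
    · rintro rfl
      exact oconj_one h h2
    · rintro rfl
      exact oconj_one g h1

/-- There is a semigroup on which o-conjugacy is a congruence whose quotient is not cancellative. -/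
theorem result : ∃ (S : Type) (_ : Semigroup S) (c : Con S),
    (∀ a b : S, c a b ↔ OConj a b) ∧ ¬ IsCancelMul c.Quotient := by
  refine ⟨M, inferInstance, c, c_iff, ?_⟩
  intro hcancel
  obtain ⟨f, hf⟩ := exists_isPos
  have hf1 : (⟨f, Or.inr hf⟩ : M) ≠ 1 := fun h => isPos_ne_one hf (congrArg Subtype.val h)
  set s : M := ⟨f, Or.inr hf⟩ with hs
  have h1 : ((s : c.Quotient)) * (s : c.Quotient) = ((1 : M) : c.Quotient) * (s : c.Quotient) := by
    rw [← Con.coe_mul, ← Con.coe_mul, Con.eq]
    show s * s = 1 ↔ 1 * s = 1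
    rw [mul_eq_one_iff', mul_eq_one_iff']
    simp
  have h2 := mul_right_cancel h1
  rw [Con.eq] at h2
  have h3 : (s = 1 ↔ (1 : M) = 1) := h2
  exact hf1 (h3.mpr rfl)

end Pool.Agent.Results.MP_472d46_al.OConjNotCancel
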